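import Pool.Agent.Helper11.M3.GoalsA
import Pool.Agent.Helper11.M3.BLG
import Pool.Agent.Helper11.R.BLU2
import Pool.Agent.Helper77.PPS.Asm

/-!
# M3-A_BL4: the field `bl₄` of `Hyp₄`
-/

set_option autoImplicit false

namespace Pool.Agent.Helper18.M3

open NumberField Polynomial Module IsDedekindDomain
open Pool.Agent.Helper51.RP Pool.Agent.Helper42.RD Pool.Agent.Helper42.PP Pool.Agent.Helper42.PP1
open Pool.Agent.Helper42.PB Pool.Agent.Helper11.PP Pool.Agent.Helper76.PP Pool.Agent.Helper76.PB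
open Pool.Agent.Helper17.PP (Sys)
open Pool.Agent.Helper51.PP (Chs)
open Pool.Agent.Helper77.PPS (mono_bound fib_bound a1_unb)
open Pool.Agent.Helper11.M3

/-- A number field with a primitive root of unity of odd prime order is totally complex. -/
theorem tc_of_prim' {p : ℕ} [Fact p.Prime] (hp : p ≠ 2) {K₁ : Type} [Field K₁] [NumberField K₁]
    {ε : K₁} (h : IsPrimitiveRoot ε p) : IsTotallyComplex K₁ := by
  have h2 : 2 < p := lt_of_le_of_ne (Fact.out : p.Prime).two_le (Ne.symm hp)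
  rw [← NumberField.nrRealPlaces_eq_zero_iff]
  exact NumberField.InfinitePlace.IsPrimitiveRoot.nrRealPlaces_eq_zero_of_two_lt h2 h

theorem psK_mul' {p : ℕ} [Fact p.Prime] {P : (ZMod p)[X]} [Fact (Irreducible P)]
    (tr : AdjoinRoot P →ₗ[ZMod p] ZMod p) (ψ₁ : AddChar (ZMod p) ℂ) (s t : AdjoinRoot P)
    (κ : ZMod p) : psK tr ψ₁ (s * (t * algebraMap (ZMod p) (AdjoinRoot P) κ)) =
      ψ₁ (tr (s * t) * κ) := by
  have h1 : s * (t * algebraMap (ZMod p) (AdjoinRoot P) κ) = κ • (s * t) := by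
    rw [Algebra.smul_def]
    ring
  rw [h1]
  change ψ₁ (tr (κ • (s * t))) = _
  rw [map_smul, smul_eq_mul, mul_comm]

theorem a_bl4 (hBLH : A_BLH) (hNZO : A_NZO) : A_BL4 := by
  intro p _ K M K₁ M₁ _ _ _ _ _ _ _ _ _ _ _ _ _ _ ε δ P _ _ hs hO B n E V s0 aτ hV tr ψ₁ htr
    hψ₁ Ka hKa
  have htc : IsTotallyComplex K₁ := tc_of_prim' hO.two hs.prim
  obtain ⟨n1, n2, n3, n4⟩ := hNZO p K M K₁ M₁ ε δ P hs hO tr htr
  obtain ⟨X1, hC1, hV1⟩ := hBLH p K M K₁ M₁ ε δ P hs B n E V s0 aτ hV ψ₁ hψ₁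
  have hA : (1 : ℝ) ≤ (Fintype.card (AdjoinRoot P) : ℝ) := by
    have : 0 < Fintype.card (AdjoinRoot P) := Fintype.card_pos
    exact_mod_cast this
  obtain ⟨Kb, hKb1, hKb⟩ := blD (sysB B E V s0 aτ) K₁ (a1_unb K₁) Ka (Fintype.card (ZMod p)ˣ)
    (Fintype.card (AdjoinRoot P) : ℝ) hA hKa
    (fun b₀ ↦ fib_bound B b₀) (ZMod p)ˣ (fun q ↦ q.1.2) (modu p K₁ B.S) (finrank K K₁)
  refine ⟨Kb, hKb1, fun K' hK' N => ?_⟩
  intro i j y c α β X hj hX hα hβ hsupp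
  have hi' : (0 : ℝ) ≤ i := Nat.cast_nonneg i
  have h1 := hKb (fun q ↦ q.1.1.asIdeal.map (algebraMap (𝓞 K) (𝓞 K₁))) (fun q ↦ B.Q q.1.1)
    {q | N q} {q | q.1.1 ∈ V ∧ y q ≠ 0 ∧ c q ≠ 0} (fun q e ↦ X1 q (tr (y q * c q)) e)
    (fun q q₁ ↦ psK tr ψ₁ (y q * (c q * algebraMap (ZMod p) (AdjoinRoot P)
      ((sysB B E V s0 aτ).kap q q₁))))
    (fun e ↦ hC1 (fun q ↦ tr (y q * c q)) e _ _ (fun q hq ↦ hq.2)
      (fun q hq ↦ ⟨hq.1, fun h => mul_ne_zero hq.2.1 hq.2.2 (n1 _ h)⟩))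
    (fun q hq q₁ _ hne ↦ by
      rw [psK_mul']
      exact hV1 (tr (y q * c q)) q q₁ hq.1 hne) i j α β X hj hX hα hβ
    (fun D hD ↦ ⟨(hsupp D hD).1, fun q hq ↦ by
      obtain ⟨a1, a2, a3, a4⟩ := (hsupp D hD).2 q hq
      refine ⟨⟨a1, a3, a4⟩, ?_⟩
      rcases a2 with a2 | a2
      · exact Or.inl a2
      · right
        intro q₁ hq₁ he
        exact a2 q₁ hq₁ (((sysB B E V s0 aτ).bsS q q₁ he).1 a1)⟩)
  refine le_trans (le_of_eq ?_) (h1.trans ?_)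
  · congr 1
  · have hm := mono_bound Kb K' i j (min i j) (Real.exp (-((2 : ℝ) ^ (i + j) / (2 * X))))
      ((i : ℝ) + 1) hKb1 hK' (Real.exp_pos _).le (by linarith)
    rw [Nat.cast_min] at hm
    exact hm

end Pool.Agent.Helper18.M3
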